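import Pool.Agent.Q22.EC.Stm

/-!
# Job EC-P: the group `P = H *_N M`
-/

set_option autoImplicit false

universe u

namespace Pool.Agent.Q176.EC

open Cardinal Monoid Pool.Agent.Q22.EC

section free

variable {I : Type u} (r : I → Bool)

/-- the basis elements which belong to `C` -/
def emb : (I × I) × Bool → Idx I
  | ((v, i), false) => (v, i, none)
  | ((v, i), true) => (v, i, some (r i))

/-- the other basis elements -/
def rst : I × I → Idx I := fun q => (q.1, q.2, some (!(r q.2)))

theorem emb_injective : Function.Injective (emb r) := by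
  rintro ⟨⟨v, i⟩, a⟩ ⟨⟨w, k⟩, b⟩ h
  cases a <;> cases b <;> simp [emb] at h ⊢
  · exact h
  · exact ⟨h.1, h.2.1⟩

/-- splitting of the basis -/
def spl : Idx I → Coprod (CC I) (FreeGroup (I × I))
  | (v, i, none) => Coprod.inl (FreeGroup.of ((v, i), false))
  | (v, i, some b) => if b = r i then Coprod.inl (FreeGroup.of ((v, i), true))
      else Coprod.inr (FreeGroup.of (v, i))

theorem spl_emb (q : (I × I) × Bool) : spl r (emb r q) = Coprod.inl (FreeGroup.of q) := by
  rcases q with ⟨⟨v, i⟩, a⟩
  cases a
  · rfl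
  · simp [emb, spl]

/-- the homomorphism back -/
noncomputable def bk : Coprod (CC I) (FreeGroup (I × I)) →* FreeGroup (Idx I) :=
  Coprod.lift (FreeGroup.map (emb r)) (FreeGroup.map (rst r))

theorem bk_spl (y : Idx I) : bk r (spl r y) = FreeGroup.of y := by
  rcases y with ⟨v, i, o⟩
  cases o with
  | none =>
    simp only [spl, bk, Coprod.lift_apply_inl, FreeGroup.map.of]
    rfl
  | some b =>
    by_cases h : b = r i
    · simp only [spl, bk, if_pos h, Coprod.lift_apply_inl, FreeGroup.map.of]
      rw [h]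
      rfl
    · simp only [spl, bk, if_neg h, Coprod.lift_apply_inr, FreeGroup.map.of]
      have : b = !(r i) := by
        cases b <;> cases hr : r i <;> simp_all
      rw [this]
      rfl

theorem lift_spl_map (c : CC I) :
    FreeGroup.lift (spl r) (FreeGroup.map (emb r) c) = Coprod.inl c := by
  have : (FreeGroup.lift (spl r)).comp (FreeGroup.map (emb r)) =
      (Coprod.inl : CC I →* Coprod (CC I) (FreeGroup (I × I))) := by
    apply FreeGroup.ext_hom
    intro q
    rw [MonoidHom.comp_apply, FreeGroup.map.of, FreeGroup.lift_apply_of, spl_emb]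
  exact DFunLike.congr_fun this c

theorem bk_lift (f : FreeGroup (Idx I)) : bk r (FreeGroup.lift (spl r) f) = f := by
  have : (bk r).comp (FreeGroup.lift (spl r)) = MonoidHom.id _ := by
    apply FreeGroup.ext_hom
    intro q
    rw [MonoidHom.comp_apply, FreeGroup.lift_apply_of, bk_spl]
    rfl
  exact DFunLike.congr_fun this f

/-- the free factor generated by a part of the basis is malnormal -/
theorem malnormal_free (hc : S_COP.{u}) (c : CC I) (hc1 : c ≠ 1) (f : FreeGroup (Idx I))
    (h : f⁻¹ * FreeGroup.map (emb r) c * f ∈ (FreeGroup.map (emb r)).range) :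
    f ∈ (FreeGroup.map (emb r)).range := by
  obtain ⟨c', hc'⟩ := h
  have h1 := congrArg (FreeGroup.lift (spl r)) hc'
  rw [map_mul, map_mul, map_inv, lift_spl_map, lift_spl_map] at h1
  obtain ⟨a, ha⟩ := hc.2.1 (CC I) (FreeGroup (I × I)) c hc1 (FreeGroup.lift (spl r) f) ⟨c', h1⟩
  refine ⟨a, ?_⟩
  rw [← bk_lift r f, ← ha]
  rfl

end free

section twist

variable {I Q : Type u} [Group Q] (r : I → Bool) (y : I → Q)

/-- the automorphism of `Q * F` -/
noncomputable def tw (y : I → Q) : Coprod Q (FreeGroup (Idx I)) →* Coprod Q (FreeGroup (Idx I)) :=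
  Coprod.lift Coprod.inl (FreeGroup.lift fun b : Idx I =>
    if b.2.2 = some (r b.2.1) then
      Coprod.inl (y b.1) * Coprod.inr (FreeGroup.of b) * (Coprod.inl (y b.1))⁻¹
    else Coprod.inr (FreeGroup.of b))

theorem tw_inl (y : I → Q) (q : Q) : tw r y (Coprod.inl q) = Coprod.inl q := rfl

theorem tw_of (y : I → Q) (b : Idx I) : tw r y (Coprod.inr (FreeGroup.of b)) =
    if b.2.2 = some (r b.2.1) then
      Coprod.inl (y b.1) * Coprod.inr (FreeGroup.of b) * (Coprod.inl (y b.1))⁻¹
    else Coprod.inr (FreeGroup.of b) := by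
  rw [tw, Coprod.lift_apply_inr, FreeGroup.lift_apply_of]

theorem tw_tw (y z : I → Q) (hyz : ∀ v, z v * y v = 1) (p : Coprod Q (FreeGroup (Idx I))) :
    tw r y (tw r z p) = p := by
  have : (tw r y).comp (tw r z) = MonoidHom.id _ := by
    apply Coprod.hom_ext
    · rfl
    · apply FreeGroup.ext_hom
      intro b
      rw [MonoidHom.comp_apply, MonoidHom.comp_apply, tw_of, MonoidHom.comp_apply,
        MonoidHom.id_apply]
      split_ifs with h
      · rw [map_mul, map_mul, map_inv, tw_inl, tw_of, if_pos h]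
        have h1 : (Coprod.inl (z b.1) * Coprod.inl (y b.1) : Coprod Q (FreeGroup (Idx I))) = 1 := by
          rw [← map_mul, hyz, map_one]
        have h2 : (Coprod.inl (z b.1) : Coprod Q (FreeGroup (Idx I))) =
            (Coprod.inl (y b.1))⁻¹ := eq_inv_of_mul_eq_one_left h1
        rw [h2]
        group
      · rw [tw_of, if_neg h]
  exact DFunLike.congr_fun this p

end twist

theorem p (ha : S_AMALG.{u}) (hc : S_COP.{u}) : S_P.{u} := by
  classical
  intro κ I hκ hκI G _ N hN M _ j hj x r
  -- the amalgamated products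
  obtain ⟨P, _, h, m, hinj, minj, hagree, hclos, huniv, hstab, -⟩ :=
    ha N (HG G I) M (Coprod.inl.comp N.subtype) j
      (Coprod.inl_injective.comp N.subtype_injective) hj
  obtain ⟨Q, _, qa, qb, qainj, qbinj, qagree, qclos, quniv, -, -⟩ :=
    ha N G M N.subtype j N.subtype_injective hj
  -- `P ≅ Q * F`
  obtain ⟨Φ, hΦh, hΦm⟩ := huniv (Coprod Q (FreeGroup (Idx I)))
    (Coprod.lift (Coprod.inl.comp qa) Coprod.inr) (Coprod.inl.comp qb) (by
      intro n
      show Coprod.inl (qa n) = Coprod.inl (qb (j n))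
      rw [← qagree]
      rfl)
  obtain ⟨Ψ0, hΨa, hΨb⟩ := quniv P (h.comp Coprod.inl) m (by
    intro n
    exact hagree n)
  let Ψ : Coprod Q (FreeGroup (Idx I)) →* P := Coprod.lift Ψ0 (h.comp Coprod.inr)
  have hΨΦ : ∀ z, Ψ (Φ z) = z := by
    have h1 : (Set.range h ∪ Set.range m : Set P) ⊆
        (Subgroup.closure (Set.range h ∪ Set.range m) : Set P) := Subgroup.subset_closure
    have h2 : Subgroup.closure (Set.range h ∪ Set.range m) ≤
        MonoidHom.eqLocus (Ψ.comp Φ) (MonoidHom.id P) := by
      rw [Subgroup.closure_le]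
      rintro _ (⟨z, rfl⟩ | ⟨z, rfl⟩)
      · have h3 : ((Ψ.comp Φ).comp h) = h := by
          apply Coprod.hom_ext
          · apply MonoidHom.ext
            intro g
            show Ψ (Φ (h (Coprod.inl g))) = h (Coprod.inl g)
            rw [hΦh]
            exact hΨa g
          · apply MonoidHom.ext
            intro f
            show Ψ (Φ (h (Coprod.inr f))) = h (Coprod.inr f)
            rw [hΦh]
            rfl
        exact DFunLike.congr_fun h3 z
      · show Ψ (Φ (m z)) = m z
        rw [hΦm]
        exact hΨb z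
    intro z
    rw [hclos] at h2
    exact h2 (Subgroup.mem_top z)
  have hΦΨ : ∀ z, Φ (Ψ z) = z := by
    have h3 : Φ.comp Ψ = MonoidHom.id _ := by
      apply Coprod.hom_ext
      · have h2 : Subgroup.closure (Set.range qa ∪ Set.range qb) ≤
            MonoidHom.eqLocus ((Φ.comp Ψ).comp Coprod.inl)
              (Coprod.inl : Q →* Coprod Q (FreeGroup (Idx I))) := by
          rw [Subgroup.closure_le]
          rintro _ (⟨z, rfl⟩ | ⟨z, rfl⟩)
          · show Φ (Ψ0 (qa z)) = Coprod.inl (qa z)
            rw [hΨa]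
            show Φ (h (Coprod.inl z)) = _
            rw [hΦh]
            rfl
          · show Φ (Ψ0 (qb z)) = Coprod.inl (qb z)
            rw [hΨb, hΦm]
            rfl
        rw [qclos] at h2
        apply MonoidHom.ext
        intro z
        exact h2 (Subgroup.mem_top z)
      · apply MonoidHom.ext
        intro f
        show Φ (h (Coprod.inr f)) = Coprod.inr f
        rw [hΦh]
        rfl
    intro z
    exact DFunLike.congr_fun h3 z
  have hΦinj : Function.Injective Φ := Function.LeftInverse.injective hΨΦ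
  -- the homomorphism `ψ`
  let ψ : CC I →* P := FreeGroup.lift fun q : (I × I) × Bool =>
    if q.2 = true then m (x q.1.1) * h (zH G q.1.1 q.1.2 (r q.1.2)) * (m (x q.1.1))⁻¹
    else h (eH G q.1.1 q.1.2)
  have hψf : ∀ v i, ψ (FreeGroup.of ((v, i), false)) = h (eH G v i) := by
    intro v i
    show FreeGroup.lift _ _ = _
    rw [FreeGroup.lift_apply_of]
    simp
  have hψt : ∀ v i, ψ (FreeGroup.of ((v, i), true)) =
      m (x v) * h (zH G v i (r i)) * (m (x v))⁻¹ := by
    intro v i
    show FreeGroup.lift _ _ = _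
    rw [FreeGroup.lift_apply_of]
    simp
  let y : I → Q := fun v => qb (x v)
  let y' : I → Q := fun v => (qb (x v))⁻¹
  have hinv1 : ∀ z, tw r y (tw r y' z) = z := tw_tw r y y' fun v => inv_mul_cancel _
  have hinv2 : ∀ z, tw r y' (tw r y z) = z := tw_tw r y' y fun v => mul_inv_cancel _
  have hψ : ∀ c, Φ (ψ c) = tw r y (Coprod.inr (FreeGroup.map (emb r) c)) := by
    have h1 : Φ.comp ψ = (tw r y).comp (Coprod.inr.comp (FreeGroup.map (emb r))) := by
      apply FreeGroup.ext_hom
      rintro ⟨⟨v, i⟩, a⟩
      rw [MonoidHom.comp_apply, MonoidHom.comp_apply, MonoidHom.comp_apply, FreeGroup.map.of,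
        tw_of]
      cases a
      · rw [hψf, hΦh, if_neg (by simp [emb])]
        rfl
      · rw [hψt, map_mul, map_mul, map_inv, hΦm, hΦh, if_pos (by simp [emb])]
        rfl
    intro c
    exact DFunLike.congr_fun h1 c
  have hψinj : Function.Injective ψ := by
    intro c c' hcc
    have h1 := congrArg Φ hcc
    rw [hψ, hψ] at h1
    have h2 := congrArg (tw r y') h1
    rw [hinv2, hinv2] at h2
    exact FreeGroup.map_injective (emb_injective r) (Coprod.inr_injective h2)
  refine ⟨P, inferInstance, h, m, ψ, hinj, minj, hψinj, fun n => (hagree n).symm, hclos, hψf, hψt,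
    ?_, ?_, ?_, ?_⟩
  · -- stability
    intro S hS
    apply hstab
    intro z
    by_contra hcon
    push Not at hcon
    have h1 : #S ≤ #N := by
      have h2 : ∀ s : S, ∃ n : N, (Coprod.inl.comp N.subtype) n = z⁻¹ * s.1 * z := fun s =>
        hcon s.1 s.2
      choose f hf using h2
      refine Cardinal.mk_le_of_injective (f := f) ?_
      intro s s' hss
      have h3 := (hf s).symm.trans ((congrArg _ hss).trans (hf s'))
      apply Subtype.ext
      have h4 : z⁻¹ * s.1 = z⁻¹ * s'.1 := mul_right_cancel h3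
      exact mul_left_cancel h4
    exact absurd (hS.trans_le (h1.trans hN)) (lt_irrefl _)
  · -- malnormality
    rintro c hc1 q ⟨c', hc'⟩
    have h1 := congrArg (fun z => tw r y' (Φ z)) hc'
    simp only [map_mul, map_inv, hψ, hinv2] at h1
    have hne : FreeGroup.map (emb r) c ≠ 1 := by
      intro h2
      exact hc1 (FreeGroup.map_injective (emb_injective r) (h2.trans (map_one _).symm))
    obtain ⟨f, hf⟩ := hc.1 Q (FreeGroup (Idx I)) _ hne (tw r y' (Φ q)) ⟨_, h1⟩
    rw [← hf, ← map_inv, ← map_mul, ← map_mul] at h1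
    have h2 := Coprod.inr_injective h1
    obtain ⟨a, ha'⟩ := malnormal_free r hc c hc1 f ⟨c', h2⟩
    refine ⟨a, ?_⟩
    apply hΦinj
    rw [hψ, ha', hf, hinv1]
  · -- elements of `G`
    rintro q s hs ⟨c, hc'⟩
    have hk : ∀ c : CC I, (Coprod.fst : Coprod Q (FreeGroup (Idx I)) →* Q) (Φ (ψ c)) = 1 := by
      have h1 : (Coprod.fst.comp Φ).comp ψ = 1 := by
        apply FreeGroup.ext_hom
        rintro ⟨⟨v, i⟩, a⟩
        show Coprod.fst (Φ (ψ _)) = 1
        cases a
        · rw [hψf, hΦh]
          rfl
        · simp only [hψt, map_mul, map_inv, hΦm, hΦh]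
          simp [zH]
      intro c
      exact DFunLike.congr_fun h1 c
    have h1 := congrArg (fun z => (Coprod.fst : Coprod Q (FreeGroup (Idx I)) →* Q) (Φ z)) hc'
    simp only [hk, map_mul, map_inv, hΦh, Coprod.lift_apply_inl] at h1
    have h2 : qa s = 1 := by
      have h3 : (Coprod.fst (Φ q))⁻¹ * qa s * (Coprod.fst (Φ q)) = 1 := h1.symm
      have h4 := congrArg (fun z => (Coprod.fst (Φ q)) * z * (Coprod.fst (Φ q))⁻¹) h3
      simpa [mul_assoc] using h4
    exact hs (qainj (h2.trans (map_one qa).symm))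
  · -- the other basis elements
    rintro q v i b hb ⟨c, hc'⟩
    let ρ : Coprod Q (FreeGroup (Idx I)) →* Multiplicative ℤ :=
      Coprod.lift 1 (FreeGroup.lift fun z : Idx I =>
        if z = (v, i, some b) then Multiplicative.ofAdd 1 else 1)
    have hρ : ∀ z : Idx I, ρ (Coprod.inr (FreeGroup.of z)) =
        if z = (v, i, some b) then Multiplicative.ofAdd 1 else 1 := by
      intro z
      show Coprod.lift _ _ _ = _
      rw [Coprod.lift_apply_inr, FreeGroup.lift_apply_of]
    have hρl : ∀ z : Q, ρ (Coprod.inl z) = 1 := fun z => rfl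
    have hk : ∀ c : CC I, ρ (Φ (ψ c)) = 1 := by
      have h1 : (ρ.comp Φ).comp ψ = 1 := by
        apply FreeGroup.ext_hom
        rintro ⟨⟨v', i'⟩, a⟩
        show ρ (Φ (ψ _)) = 1
        cases a
        · rw [hψf, hΦh]
          show ρ (Coprod.inr (FreeGroup.of (v', i', none))) = 1
          rw [hρ, if_neg (by simp)]
        · simp only [hψt, map_mul, map_inv, hΦm, hΦh]
          have h2 : ρ (Coprod.inr (FreeGroup.of (v', i', some (r i')))) = 1 := by
            rw [hρ, if_neg]
            intro h3
            rw [Prod.mk.injEq, Prod.mk.injEq, Option.some.injEq] at h3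
            exact hb (by rw [← h3.2.2, h3.2.1])
          show ρ (Coprod.inl (qb (x v'))) * ρ (Coprod.inr (FreeGroup.of (v', i', some (r i')))) *
            (ρ (Coprod.inl (qb (x v'))))⁻¹ = 1
          rw [hρl, h2]
          rfl
      intro c
      exact DFunLike.congr_fun h1 c
    have h1 := congrArg (fun z => ρ (Φ z)) hc'
    simp only [hk, map_mul, map_inv, hΦh] at h1
    have h2 : ρ (Coprod.lift (Coprod.inl.comp qa) Coprod.inr (zH G v i b)) =
        Multiplicative.ofAdd 1 := by
      show ρ (Coprod.inr (FreeGroup.of (v, i, some b))) = _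
      rw [hρ, if_pos rfl]
    rw [h2, mul_comm (ρ (Φ q))⁻¹, mul_assoc, inv_mul_cancel, mul_one] at h1
    have h3 := congrArg Multiplicative.toAdd h1
    exact absurd h3 (by decide)

end Pool.Agent.Q176.EC
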